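import Mathlib
import Pool.Agent.Helper43.RK.DefsT

/-!
# Project RK, part (i): the formal calculus

`A` is a commutative ring in which `2` is a unit (later `ℤ[1/2]`), `p : A → G` is additive, `f` acts on `p` by doubling and
`a⁻¹ f a = f^k`.  `q = 2^k`, `c = 2^(k-1)` as units of `A`, `Z = f^(1-k)`.
A triangle `Tri v l r e` is the identity `a p(v) a = p(l) a p(r) Z^e`.
-/

set_option autoImplicit false

namespace Pool.Agent.Helper22.RKI

/-- the formal data -/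
structure Fd (k : ℕ) (A : Type) [CommRing A] (G : Type) [Group G] where
  two : Aˣ
  p : A → G
  f : G
  a : G
  htwo : (two : A) = 2
  p_add : ∀ x y, p (x + y) = p x * p y
  pf : ∀ x, f⁻¹ * p x * f = p (2 * x)
  fa : a⁻¹ * f * a = f ^ k

namespace Fd

variable {k : ℕ} {A : Type} [CommRing A] {G : Type} [Group G] (D : Fd k A G)

/-- `Z = f^(1-k)` -/
def Z : G := D.f ^ (1 - (k : ℤ))

/-- `c = 2^(k-1)` -/
def c : Aˣ := D.two ^ ((k : ℤ) - 1)

/-- `q = 2^k` -/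
def q : Aˣ := D.two ^ (k : ℤ)

/-- the triangle `a p(v) a = p(l) a p(r) Z^e` -/
def Tri (v l r : A) (e : ℤ) : Prop := D.a * D.p v * D.a = D.p l * D.a * D.p r * D.Z ^ e

/-! ### Basic rules -/

theorem p0 : D.p 0 = 1 := by
  have h := D.p_add 0 0
  rw [add_zero] at h
  have h2 : D.p 0 * 1 = D.p 0 * D.p 0 := by rw [mul_one]; exact h
  exact (mul_left_cancel h2).symm

theorem pneg (x : A) : D.p (-x) = (D.p x)⁻¹ := by
  apply eq_inv_of_mul_eq_one_left
  rw [← D.p_add, neg_add_cancel, D.p0]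

theorem psub (x y : A) : D.p (x - y) = D.p x * (D.p y)⁻¹ := by
  rw [sub_eq_add_neg, D.p_add, D.pneg]

theorem pcomm (x y : A) : D.p x * D.p y = D.p y * D.p x := by
  rw [← D.p_add, ← D.p_add, add_comm]

/-- natural multiples -/
theorem pnat (m : ℕ) (x : A) : D.p ((m : A) * x) = D.p x ^ m := by
  induction m with
  | zero => simp [D.p0]
  | succ m ih => rw [pow_succ, ← ih, ← D.p_add]; congr 1; push_cast; ring

/-- integer multiples -/
theorem pint (m : ℤ) (x : A) : D.p ((m : A) * x) = D.p x ^ m := by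
  obtain ⟨j, hj | hj⟩ := m.eq_nat_or_neg
  · subst hj; rw [zpow_natCast]; simpa using D.pnat j x
  · subst hj; rw [zpow_neg, zpow_natCast, ← D.pnat j x, ← D.pneg]; congr 1; push_cast; ring

theorem pf1 (x : A) : D.p x * D.f = D.f * D.p ((D.two : A) * x) := by
  rw [D.htwo, ← D.pf]; group

theorem pf1' (x : A) : D.p x * D.f⁻¹ = D.f⁻¹ * D.p (((D.two⁻¹ : Aˣ) : A) * x) := by
  have h := D.pf1 (((D.two⁻¹ : Aˣ) : A) * x)
  rw [← mul_assoc, Units.mul_inv, one_mul] at h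
  calc D.p x * D.f⁻¹ = D.f⁻¹ * (D.f * D.p x) * D.f⁻¹ := by group
    _ = D.f⁻¹ * (D.p (((D.two⁻¹ : Aˣ) : A) * x) * D.f) * D.f⁻¹ := by rw [h]
    _ = _ := by group

/-- `p(x) f^m = f^m p(2^m x)` -/
theorem pfz (m : ℤ) (x : A) : D.p x * D.f ^ m = D.f ^ m * D.p (((D.two ^ m : Aˣ) : A) * x) := by
  induction m using Int.induction_on generalizing x with
  | zero => simp
  | succ i ih =>
    rw [zpow_add_one, ← mul_assoc, ih, mul_assoc, D.pf1, ← mul_assoc]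
    congr 2
    rw [zpow_add_one, Units.val_mul]; ring
  | pred i ih =>
    rw [zpow_sub_one, ← mul_assoc, ih, mul_assoc, D.pf1', ← mul_assoc]
    congr 2
    rw [zpow_sub_one, Units.val_mul]; ring

/-- `f^m p(x) = p(2^-m x) f^m` -/
theorem fzp (m : ℤ) (x : A) : D.f ^ m * D.p x = D.p (((D.two ^ (-m) : Aˣ) : A) * x) * D.f ^ m := by
  rw [D.pfz, ← mul_assoc, ← Units.val_mul, ← zpow_add]; simp

/-- `f^m a = a f^(k m)` -/
theorem fza (m : ℤ) : D.f ^ m * D.a = D.a * D.f ^ ((k : ℤ) * m) := by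
  have h : D.a⁻¹ * D.f ^ m * D.a = D.f ^ ((k : ℤ) * m) := by
    have h1 : D.a⁻¹ * D.f ^ m * D.a = (D.a⁻¹ * D.f * D.a) ^ m := by
      have := (map_zpow (MulAut.conj D.a⁻¹) D.f m)
      simpa [MulAut.conj_apply] using this
    rw [h1, D.fa, zpow_mul, zpow_natCast]
  rw [← h]; group

/-- `Z^m p(x) = p(c^m x) Z^m` -/
theorem Zp (m : ℤ) (x : A) : D.Z ^ m * D.p x = D.p (((D.c ^ m : Aˣ) : A) * x) * D.Z ^ m := by
  rw [Z, c, ← zpow_mul, D.fzp, ← zpow_mul]
  congr 5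
  ring

/-- `p(x) Z^m = Z^m p(c^-m x)` -/
theorem pZ (m : ℤ) (x : A) : D.p x * D.Z ^ m = D.Z ^ m * D.p (((D.c ^ (-m) : Aˣ) : A) * x) := by
  rw [D.Zp, ← mul_assoc, ← Units.val_mul, ← zpow_add]; simp

/-- `Z^m a = a Z^(k m)` -/
theorem Za (m : ℤ) : D.Z ^ m * D.a = D.a * D.Z ^ ((k : ℤ) * m) := by
  rw [Z, ← zpow_mul, D.fza, ← zpow_mul]
  congr 2
  ring

/-- `f` commutes with `Z` -/
theorem fZ (m i : ℤ) : D.f ^ m * D.Z ^ i = D.Z ^ i * D.f ^ m := by
  rw [Z, ← zpow_mul, ← zpow_add, ← zpow_add, add_comm]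

end Fd

end Pool.Agent.Helper22.RKI
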