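import Mathlib
import Pool.Agent.Helper22.RKI.Defs
import Pool.Agent.Helper43.RK.StT

/-!
# Statements of project RK, part (i)

Notation: `N = q - 1`.  Rules in `Defs.lean`: `pfz, fzp, fza, Zp, pZ, Za, fZ, pneg, pnat, pint`.
-/

set_option autoImplicit false

namespace Pool.Agent.Helper22.RKI

open Pool.Agent.Helper43.RK

/-- SC.  Scaling of a triangle by `f^i`.

PROOF. Multiply `a p(v) a = p(l) a p(r) Z^e` on the left by `f^-i`.  Left side: `f^-i a = a f^(-k i)` (`fza`),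
`f^(-k i) p(v) = p(2^(k i) v) f^(-k i)` (`fzp`), `f^(-k i) a = a f^(-k² i)`: it is `a p(q^i v) a f^(-k² i)`.  Right side:
`f^-i p(l) a p(r) Z^e = p(2^i l) f^-i a p(r) Z^e = p(2^i l) a f^(-k i) p(r) Z^e = p(2^i l) a p(q^i r) f^(-k i) Z^e`.
So `a p(q^i v) a = p(2^i l) a p(q^i r) f^(-k i) Z^e f^(k² i)` and `f^(k² i - k i) = Z^(-k i)`. -/
def StSC : Prop := ∀ (k : ℕ) (A : Type) [CommRing A] (G : Type) [Group G] (D : Fd k A G) (v l r : A) (e : ℤ),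
  D.Tri v l r e → ∀ i : ℤ, D.Tri (((D.q ^ i : Aˣ) : A) * v) (((D.two ^ i : Aˣ) : A) * l) (((D.q ^ i : Aˣ) : A) * r)
    (e - (k : ℤ) * i)

/-- TH.  The operation Theta.

PROOF. `a p(v) a = p(l) a p(r) Z^e` gives `X := a⁻¹ p(-l) a = p(r) Z^e a⁻¹ p(-v)`.  `X² = a⁻¹ p(-2l) a = a⁻¹ f⁻¹ p(-l) f a
= f^-k X f^k` (`a⁻¹ f⁻¹ a = f^-k`).  `f^-k X f^k = p(q r) Z^e f^-k a⁻¹ f^k p(-q v) = p(q r) Z^e a⁻¹ Z⁻¹ p(-q v)` (`f^-k a⁻¹ = a⁻¹ f⁻¹`,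
`f⁻¹ f^k = Z⁻¹`).  `X² = p(r) Z^e a⁻¹ p(r - v) Z^e a⁻¹ p(-v)`.  So
`a⁻¹ p(r - v) Z^e a⁻¹ = Z^-e p(N r) Z^e a⁻¹ Z⁻¹ p(-N v) = p(c^-e N r) a⁻¹ Z⁻¹ p(-N v)`.  Take inverses:
`a Z^-e p(v - r) a = p(N v) Z a p(-c^-e N r)`.  Left: `Z^-e p(v-r) = p(c^-e (v-r)) Z^-e`, `Z^-e a = a Z^(-k e)`.  Right: `Z a = a Z^k`,
`Z^k p(x) = p(c^k x) Z^k`.  So `a p(c^-e (v-r)) a = p(N v) a p(-c^(k-e) N r) Z^(k + k e)`. -/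
def StTH : Prop := ∀ (k : ℕ) (A : Type) [CommRing A] (G : Type) [Group G] (D : Fd k A G) (v l r : A) (e : ℤ),
  D.Tri v l r e → D.Tri ((v - r) * ((D.c ^ (-e) : Aˣ) : A)) (((D.q : A) - 1) * v)
    (-(((D.q : A) - 1) * r * ((D.c ^ ((k : ℤ) - e) : Aˣ) : A))) ((k : ℤ) * (e + 1))

/-- T3.  The third triangle.

PROOF. `N = q - 1`, `q = 2 c`, `q^(1-k) = c^-k`, `2^(1-k) = c⁻¹`.  From `Tri v l ρ (k m)`: `a p(ρ) a⁻¹ = p(-l) a p(v) Z^-m`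
(`a Z^(-k m) a⁻¹ = Z^-m`).  (1) second hypothesis, `m = 2k+1`: `a p(r N²) a⁻¹ = p(N c0) a p(w) Z^-(2k+1)`.
(2) scaling (SC) of the first one with `i = 1-k` (exponent `2k - k(1-k) = k(k+1)`, `q^(1-k) c^k = 1`):
`a p(-r N) a⁻¹ = p(c⁻¹ N) a p(-c^-k c0) Z^-(k+1)`.  (3) with `i = 2-k` (exponent `k·k`):
`a p(-r N q) a⁻¹ = p(2 c⁻¹ N) a p(-q c^-k c0) Z^-k`, inverse: `a p(r N q) a⁻¹ = Z^k p(q c^-k c0) a⁻¹ p(-2 c⁻¹ N)`.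
(4) `r N² = -r N + r N q`, so (1) = (2)(3); `Z⁻¹ p(q c^-k c0) = p(2 c^-k c0) Z⁻¹`, so
`p(N c0) a p(w) Z^-(2k+1) = p(c⁻¹ N) a p(c^-k c0) Z⁻¹ a⁻¹ p(-2 c⁻¹ N)`.  Multiply on the right by `p(2 c⁻¹ N) a Z`;
`Z^-(2k+1) p(2 c⁻¹ N) = p(2 c^(-2k-2) N) Z^-(2k+1)`, `Z^-(2k+1) a = a Z^(-k(2k+1))`:
`p(N c0) a p(w + 2 N c^(-2k-2)) a Z^(1 - k(2k+1)) = p(c⁻¹ N) a p(c^-k c0)`, and `c⁻¹ N - N c0 = -r N`. -/
def StT3 : Prop := StSC → ∀ (k : ℕ) (A : Type) [CommRing A] (G : Type) [Group G] (D : Fd k A G) (r c0 w : A),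
  c0 = r + ((D.c⁻¹ : Aˣ) : A) →
  D.Tri (-c0) (-((D.q : A) - 1)) (-(r * ((D.q : A) - 1) * ((D.c ^ (k : ℤ) : Aˣ) : A))) (2 * (k : ℤ)) →
  D.Tri w (-(((D.q : A) - 1) * c0)) (r * ((D.q : A) - 1) ^ 2) ((k : ℤ) * (2 * k + 1)) →
  D.Tri (w + 2 * ((D.q : A) - 1) * ((D.c ^ (-(2 * (k : ℤ)) - 2) : Aˣ) : A)) (-(r * ((D.q : A) - 1)))
    (c0 * ((D.c ^ (-(k : ℤ)) : Aˣ) : A)) (2 * (k : ℤ) ^ 2 + k - 1)

/-- CO1.  The coincidence.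

PROOF. `a⁻¹ p(-l) a = p(r) Z^e a⁻¹ p(-v)` and `a⁻¹ p(l) a = p(r') Z^e' a⁻¹ p(-v')`.  The product (second times first) is `1`:
`p(r') Z^e' a⁻¹ p(r - v') Z^e a⁻¹ p(-v) = 1`, so `a⁻¹ p(r - v') Z^e a⁻¹ = Z^-e' p(v - r')`, take inverses:
`a Z^-e p(v' - r) a = p(r' - v) Z^e'`, and `Z^-e p(v'-r) = p(c^-e (v'-r)) Z^-e`, `Z^-e a = a Z^(-k e)`. -/
def StCO1 : Prop := ∀ (k : ℕ) (A : Type) [CommRing A] (G : Type) [Group G] (D : Fd k A G) (v l r : A) (e : ℤ)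
  (v' r' : A) (e' : ℤ), D.Tri v l r e → D.Tri v' (-l) r' e' →
  D.a * D.p ((v' - r) * ((D.c ^ (-e) : Aˣ) : A)) * D.a = D.p (r' - v) * D.Z ^ (e' + (k : ℤ) * e)

/-- CO2.  Consequences of the coincidence.

PROOF. `a p(x) a = p(z) Z^j`.  Conjugate by `f`: `f⁻¹ a p(x) a f = a f^-k p(x) a f = a p(q x) f^-k a f = a p(q x) a f^(1-k²)`, and
`f^(1-k²) = Z^(k+1)`; `f⁻¹ p(z) Z^j f = p(2z) Z^j`.  So `a p(q x) a = p(2z) Z^(j-k-1)`.  With `s(y) = a⁻¹ p(y) a` (additive):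
`s(N x) = (a p(x) a)⁻¹ (a p(q x) a) = Z^-j p(-z) p(2z) Z^(j-k-1) = p(z') Z^-(k+1)`, `z' = c^-j z`.
`s(2y) = f^-k s(y) f^k` for all `y` (`a⁻¹ f⁻¹ a = f^-k`), so `s(N x)² = s(2 N x) = f^-k s(N x) f^k`:
`p(z' + c^-(k+1) z') Z^(-2(k+1)) = p(q z') Z^-(k+1)`.  So `Z^-(k+1) = p(u)` for some `u`; conjugation by `f` gives
`p(2u) = p(u)`, so `p(u) = 1`: `Z^(k+1) = 1`.  Then `p(c^-(k+1) y) = p(y)` for all `y`, so `p(2z') = p(q z')`, `p((q-2) z') = 1`,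
`s(N x) = p(z')` and `s((q-2) N x) = s(N x)^(q-2) = p(z')^(q-2) = p((q-2) z') = 1` (`q - 2 = 2^k - 2` is an integer: `pint`), so
`p((q-2) N x) = 1`. -/
def StCO2 : Prop := ∀ (k : ℕ) (A : Type) [CommRing A] (G : Type) [Group G] (D : Fd k A G) (x z : A) (j : ℤ),
  D.a * D.p x * D.a = D.p z * D.Z ^ j →
  D.Z ^ ((k : ℤ) + 1) = 1 ∧ D.p (((D.q : A) - 2) * (((D.q : A) - 1) * x)) = 1

/-- DY.  Dyadic powers.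

PROOF. `A = ℤ[1/2]`, e.g. the subring `{x : ℚ | ∃ (j : ℕ) (i : ℤ), x * 2^j = i}` of `ℚ` (or `Localization.Away (2 : ℤ)`).
`p x = f^j t^i f^-j` for `x = i / 2^j`; independent of the choice: `f t^(2i) f⁻¹ = t^i`, so `(j+1, 2i)` gives the same as `(j, i)`
(and two representations `(j, i)`, `(j', i')` have a common refinement).  Additivity with a common denominator.
`f⁻¹ p(x) f = p(2x)`: `2 x = (2 i) / 2^j`, `f⁻¹ f^j t^i f^-j f = f^j (f⁻¹ t^i f) f^-j = f^j t^(2i) f^-j`. -/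
def StDY : Prop := ∀ (G : Type) [Group G] (t f : G), f⁻¹ * t * f = t ^ 2 →
  ∃ (A : Type) (_ : CommRing A) (two : Aˣ) (p : A → G), (two : A) = 2 ∧ (∀ x y, p (x + y) = p x * p y) ∧
    (∀ x, f⁻¹ * p x * f = p (2 * x)) ∧ p 1 = t

/-- the relator as a triangle with integral exponents, `r = -2^n` -/
def Rel0 (n k : ℕ) {G : Type} [Group G] (f a t : G) : Prop :=
  a * t⁻¹ * a = t ^ ((2 : ℤ) ^ n - 1) * a * f ^ (1 - (k : ℤ)) * t ^ (-(2 : ℤ) ^ n)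

/-- the second triangle with integral exponents -/
def RelY (n k : ℕ) {G : Type} [Group G] (f a t : G) : Prop :=
  a * t ^ ((2 : ℤ) ^ n * 2 ^ k - 2) * a = t ^ (-(2 * ((2 : ℤ) ^ k - 1))) * a *
    t ^ ((2 : ℤ) ^ n * (2 ^ k - 1) * 2 ^ (k ^ 2)) * f ^ ((1 - (k : ℤ)) * k)

/-- S0.  The relator.

PROOF. `f = g^4`.  `f⁻¹ t f = t²` is `r2`; `a⁻¹ g^4 a = g^(4k)` from `r1`.  Let `l = 1 - 2^n`, `s = g^β` (commutes with `f`), `al = t^-l a t^l`.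
`s⁻¹ t s = al t⁻¹`.  `s⁻¹ t² s = al t⁻¹ al t⁻¹`; also `t² = f⁻¹ t f`, `s⁻¹ t² s = f⁻¹ (al t⁻¹) f = (f⁻¹ al f) t⁻²`, and
`f⁻¹ al f = t^(-2l) (f⁻¹ a f) t^(2l)`, `f⁻¹ a f = a (a⁻¹ f⁻¹ a) f = a f^(1-k)`.  So
`t^(-2l) a f^(1-k) t^(2l-2) = t^-l a t^l t⁻¹ t^-l a t^l t⁻¹`; multiply on the left by `t^l` and on the right by `t^(1-l)`:
`t^-l a f^(1-k) t^(l-1) = a t⁻¹ a`. -/
def StS0 : Prop := ∀ (n k β : ℕ) (G : Type) [Group G] (g a t : G), RelB n k β g a t →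
  (g ^ 4)⁻¹ * t * g ^ 4 = t ^ 2 ∧ a⁻¹ * g ^ 4 * a = (g ^ 4) ^ k ∧ Rel0 n k (g ^ 4) a t

/-- FORM.  The formal consequences.

PROOF. Take `A`, `two`, `p` from DY and the data `D` with `f`, `a`; `p(m) = t^m` for `m : ℤ` (`pint` with `x = 1`).  `r = -2^n`, `c0 = r + c⁻¹`.
The relator is `Tri (-1) (-(r+1)) (r c) 1` (`Z t^r = p(c r) Z`).
`Y`: TH of it: `Tri (-c0) (-(q-1)) (-(r (q-1) c^k)) (2k)` (`(-1 - r c) c⁻¹ = -c0`).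
`W`: TH of `Y`: `Tri w (-((q-1) c0)) (r (q-1)²) (k(2k+1))`, `w = (-c0 + r(q-1)c^k) c^(-2k)`.
T3 gives a triangle with `l = -(r (q-1)) = 2^n (q-1)`, `ρ = c0 c^-k`, `e = 2k²+k-1`.  SC of `Y` with `i = n`: `v' = -q^n c0`,
`l' = -2^n (q-1) = -l`.  CO1: `a p(x) a = p(z) Z^j`, `x = (-q^n c0 - c0 c^-k) c^-e`.  CO2: `Z^(k+1) = 1`, i.e. `f^(k²-1) = 1`
(`(1-k)(k+1) = 1-k²`), and `p((q-2)(q-1) x) = 1`.  If `p(y) = 1` then `p(2^m y) = 1` for all `m : ℤ` (`fzp`).  Multiply by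
`-c^e · c · c^k` (powers of `2`): `c0 c = r c + 1`, `(q^n + c^-k) c^k = q^n c^k + 1`, so `p((q-2)(q-1)(r c + 1)(q^n c^k + 1)) = 1`, where
`q - 2 = 2(2^(k-1) - 1)`, `r c + 1 = -(2^(n+k-1) - 1)`, `q^n c^k = 2^(k(n+k-1))`.
`RelY` is SC of `Y` with `i = 1` (`q c0 = q r + 2`, exponent `k`, `q c^k = 2^(k²)`). -/
def StFORM : Prop := StSC → StTH → StT3 → StCO1 → StCO2 → StDY → ∀ (n k : ℕ), 1 ≤ k →
  ∀ (G : Type) [Group G] (f a t : G), f⁻¹ * t * f = t ^ 2 → a⁻¹ * f * a = f ^ k → Rel0 n k f a t →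
  f ^ (k ^ 2 - 1) = 1 ∧
  t ^ (2 * (2 ^ (k - 1) - 1) * (2 ^ k - 1) * (2 ^ (n + k - 1) - 1) * (2 ^ (k * (n + k - 1)) + 1)) = 1 ∧
  RelY n k f a t

/-- NUM.  Arithmetic for `T = 1`.

PROOF. `D = 2^(k-1) - 1`, `2^(k²-1) - 1 = D S`, `S = Σ_{i ≤ k} (2^(k-1))^i` (`k² - 1 = (k-1)(k+1)`; `geom_sum`).  `m` divides `D S` and `D M`,
`M = 2 (2^k - 1)(2^(n+k-1) - 1)(2^(k(n+k-1)) + 1)`, so it divides `D gcd(S, M)`.  Claim `gcd(S, M) = 1`: let `p` be a prime dividing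
both.  `p` is odd (`D S` is odd).  `2^(k²-1) = 1` mod `p`.  If `2^k = 1` mod `p` then `2^(k²) = 1 = 2 · 1`, `p = 1`.  Otherwise
`2^(2k(n+k-1)) = 1` mod `p` (both last factors divide `2^(2k(n+k-1)) - 1`).  `gcd(k²-1, 2k(n+k-1))` divides `2n` which divides `k-1`:
`gcd(k, k²-1) = 1`; `k = 2^e - 1`, `k - 1 = 2X`, `X = 2^(e-1) - 1` odd, `n | X`, `k² - 1 = 2^(e+1) X`, `n + k - 1 = n + 2X` odd,
`gcd(2^(e+1) X, 2(n + 2X)) = 2 gcd(X, n + 2X) = 2n`.  So `2^(k-1) = 1` mod `p`, `S = k + 1 = 2^e` mod `p`, contradiction. -/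
def StNUM : Prop := ∀ n k β : ℕ, Par n k β → ∀ m : ℕ, m ∣ 2 ^ (k ^ 2 - 1) - 1 →
  m ∣ 2 * (2 ^ (k - 1) - 1) * (2 ^ k - 1) * (2 ^ (n + k - 1) - 1) * (2 ^ (k * (n + k - 1)) + 1) →
  m ∣ 2 ^ (k - 1) - 1

/-- NUM2.  Arithmetic for `t^(4^n-1) = 1`; here `β (k+1) / 4` is an integer as `8 ∣ k + 1`.

PROOF. `Nat.pow_sub_one_gcd_pow_sub_one` (gcd of `2^x - 1` and `2^y - 1`).  `k + 1 = 2^e`, `e ≥ 3`, `k - 1 = 2X`, `X` odd, `β` odd,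
`gcd(β 2^(e-2), 2X) = 2 gcd(β, X) = 2n` (`gcd(β, k-1) = n`). -/
def StNUM2 : Prop := ∀ n k β : ℕ, Par n k β → Nat.gcd β (k - 1) = n → ∀ m : ℕ, m ∣ 2 ^ (β * ((k + 1) / 4)) - 1 →
  m ∣ 2 ^ (k - 1) - 1 → m ∣ 4 ^ n - 1

/-- CEN.  `Z` is central of order at most two and `a² = Z`.

PROOF. `Z = f^(1-k)`, `Z^(k+1) = f^(1-k²) = 1`.  `t^(2^(k-1)) = t`, so `Z⁻¹ t Z`: `f^-(k-1) t f^(k-1) = t^(2^(k-1)) = t`: `Z` commutes with `t`.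
`a⁻¹ Z a = Z^k = Z⁻¹`, so `Z⁻¹ a Z = a (a⁻¹ Z⁻¹ a) Z = a Z²`.  Conjugate `Rel0` by `Z`: left side `a Z² t⁻¹ a Z² = a t⁻¹ Z² a Z² = a t⁻¹ a Z⁻² Z²
= a t⁻¹ a`; right side `t^(Q-1) a Z² Z t^-Q = (t^(Q-1) a Z t^-Q) Z²`.  So `Z² = 1`, and `a⁻¹ Z a = Z⁻¹ = Z`.
`t^(2^(k-1)) = t` gives `t^(2^n 2^k - 2) = t^(2Q-2)`, `t^(-2(2^k-1)) = t^-2`, `t^(2^n (2^k-1) 2^(k²)) = t^(2Q)` (`k² = (k-1)(k+1) + 1`), `Z^k = Z` (`k` odd):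
`RelY` is (II) `a t^(2Q-2) a = t^-2 a t^(2Q) Z`.  Conjugate `Rel0` by `f` (`f⁻¹ a f = a Z`): (I) `a t^-2 a = t^(2Q-2) a t^(-2Q)` (`Z² = 1`).
Insert `t^(2Q-2) = a t^-2 a t^(2Q) a⁻¹` in (II): `a² t^-2 a t^(2Q) = t^-2 a t^(2Q) Z`, so `a² = Z`. -/
def StCEN : Prop := ∀ (n k : ℕ), 1 ≤ k → k % 2 = 1 → ∀ (G : Type) [Group G] (f a t : G), f⁻¹ * t * f = t ^ 2 →
  a⁻¹ * f * a = f ^ k → Rel0 n k f a t → RelY n k f a t → f ^ (k ^ 2 - 1) = 1 → t ^ (2 ^ (k - 1) - 1) = 1 →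
  f ^ (1 - (k : ℤ)) * f ^ (1 - (k : ℤ)) = 1 ∧ Commute (f ^ (1 - (k : ℤ))) t ∧ Commute (f ^ (1 - (k : ℤ))) a ∧
    a * a = f ^ (1 - (k : ℤ))

/-- WT.  The involution `w` and `t^(4^n-1) = 1`.

PROOF. `f = g^4`, `Z = f^(1-k)`.  `Rel0` times `t` on the right: `a a_1 = a_l Z` (`a_i = cj a t i`, `l = 1 - 2^n`), so `a_l = a a_1 Z`.
`w = g^β a`: `w⁻¹ t w = a⁻¹ (a_l t⁻¹) a = a⁻¹ a a_1 Z t⁻¹ a = t⁻¹ a t t⁻¹ a Z = t⁻¹ a² Z = t⁻¹`.  So `w²` commutes with `t`.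
`w² = g^β a g^β a = g^β a² (a⁻¹ g^β a) = g^β Z g^(kβ) = Z g^(β(k+1))` (`r1`), so `g^(β(k+1)) = (g^4)^(β (k+1)/4)` commutes with `t`:
`t^(2^(β (k+1)/4)) = t`.  With NUM2 for `m = orderOf t`. -/
def StWT : Prop := StNUM2 → ∀ n k β : ℕ, Par n k β → Nat.gcd β (k - 1) = n → ∀ (G : Type) [Group G] (g a t : G),
  RelB n k β g a t → (g ^ 4) ^ (1 - (k : ℤ)) * (g ^ 4) ^ (1 - (k : ℤ)) = 1 → Commute ((g ^ 4) ^ (1 - (k : ℤ))) t →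
  Commute ((g ^ 4) ^ (1 - (k : ℤ))) a → a * a = (g ^ 4) ^ (1 - (k : ℤ)) → Rel0 n k (g ^ 4) a t →
  t ^ (2 ^ (k - 1) - 1) = 1 → t ^ (4 ^ n - 1) = 1

/-- COM.  The hexagon argument.

PROOF. `a_i = cj a t i` are involutions.  `a_l = a_0 a_1`; an involution, so `a_0 a_1 = a_1 a_0`.  `S = {d | a_0 commutes with a_d}`.
`a_i`, `a_j` commute iff `j - i ∈ S`; `-S = S`; `0, 1, l, l-1 ∈ S`.  Conjugating by `t^d`: `a_(d+l) = a_d a_(d+1)`, so if two of `d, d+1, d+l` are in `S` so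
is the third.  CLAIM `i + j l ∈ S` for all `i, j : ℤ` (only `j = 0` is needed at the end).  Induction on `m ≥ 1`:
`H_m = {(i,j) : |i| ≤ m, |j| ≤ m, |i+j| ≤ m}` has all `i + j l ∈ S`.  `m = 1`: `(0,0), ±(1,0), ±(0,1), ±(1,-1)`.  `m → m+1`, triangle at `(i,j)`:
`(i,j), (i+1,j), (i,j+1)`.
 `(-p,-s)`, `p + s = m+1`, `p, s ≥ 1`: triangle at `(-p,-s)`, the other two are in `H_m`; then `(p,s)` by `-S = S`.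
 `(m+1,-s)`, `1 ≤ s ≤ m`: triangle at `(m,-s)`; others `(m,-s), (m,-s+1)`.  Then `(-m-1,s)`.
 `(-s,m+1)`, `1 ≤ s ≤ m`: triangle at `(-s,m)`; others `(-s,m), (-s+1,m)`.  Then `(s,-m-1)`.
 corner `(m+1,0)`: triangle at `(m,0)`, others `(m,0)`, `(m,1)` (first item).  Corner `(0,m+1)`: triangle at `(0,m)`: `(0,m), (1,m)`.  Negatives.
 corner `(m+1,-m-1)`: triangle at `(m,-m-1)`: others `(m,-m-1)` (third item, `s = m`), `(m,-m)`.  Negative. -/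
def StCOM : Prop := ∀ (l : ℤ) (G : Type) [Group G] (a t : G), a * a = 1 → cj a t l = a * cj a t 1 →
  ∀ i j : ℤ, cj a t i * cj a t j = cj a t j * cj a t i

/-- RC.  All relations in the quotient.

PROOF. `a2`, `fa`, `al`, `tfin` are hypotheses, `ft` is `r2`, `com` is COM, `gfin`: `8 n`.  `w = g^β a`; `a⁻¹ g^β a = g^(kβ)` (`r1`), so
`w² = g^β a² (a⁻¹ g^β a) = g^(β (k+1)) = 1` as `8n ∣ β (k+1)` (`n ∣ β`, `8 ∣ k+1`).  `th2`: `8n ∣ 8β`.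
`wt`: `w⁻¹ t w = a⁻¹ (a_l t⁻¹) a = a a a_1 t⁻¹ a = t⁻¹ a t t⁻¹ a = t⁻¹`.
`tht`: `(g^β)^4 = (g^4)^β`, so `t ↦ t^(2^β)`, `β = n b`, `b` odd (`β % 8 = 1`), `2^β = 2^n (4^n)^((b-1)/2)`, and `t^(4^n) = t`. -/
def StRC : Prop := StCOM → ∀ n k β : ℕ, Par n k β → ∀ (G : Type) [Group G] (g a t : G), RelB n k β g a t →
  a * a = 1 → g ^ (8 * n) = 1 → g ^ 4 * a = a * g ^ 4 → cj a t (1 - 2 ^ n) = a * cj a t 1 →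
  t ^ (4 ^ n - 1) = 1 → RelC n β g a t

/-- ASM.  Assembly: `StPI` of helper43 (for parameters with `gcd(β, k-1) = n`).

PROOF. `f = g^4`.  S0, FORM: `f^(k²-1) = 1`, the second relation, `RelY`.  `f⁻¹ t f = t²` and `f^(k²-1) = 1` give `t^(2^(k²-1) - 1) = 1`.  NUM with
`m = orderOf t` (`orderOf_dvd_of_pow_eq_one`): `t^(2^(k-1)-1) = 1`.  CEN, WT: `t^(4^n-1) = 1`.
`C = zpowers (g^(8n))`: `g^(8n) = f^(2n)` commutes with `t` (`t^(4^n) = t`), with `g`, with `a`: `a⁻¹ f^(2n) a = f^(2nk) = f^(2n) (f^(1-k))^(-2n) = f^(2n)`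
(`Z² = 1`).  `closure {g, a, t} = ⊤`, so it is central, `C` is normal; `g` has finite order, so `C` is finite.  `Z = f^(1-k) ∈ C` as
`2n ∣ k-1`.  In `G ⧸ C`: `RelB` (map), `a² = Z = 1`, `g^(8n) = 1`, `g^4 a = a g^4` (`f⁻¹ a f = a Z`), `a_l = a a_1` (`Rel0` times `t`), then RC. -/
def StASM : Prop := StSC → StTH → StT3 → StCO1 → StCO2 → StDY → StS0 → StFORM → StNUM → StNUM2 → StCEN → StWT →
  StCOM → StRC → ∀ n k β : ℕ, Par n k β → Nat.gcd β (k - 1) = n → ∀ (G : Type) [Group G] (g a t : G), RelB n k β g a t →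
  Subgroup.closure {g, a, t} = (⊤ : Subgroup G) →
  ∃ (C : Subgroup G) (_ : C.Normal), Finite C ∧
    RelC n β (QuotientGroup.mk g : G ⧸ C) (QuotientGroup.mk a) (QuotientGroup.mk t)

end Pool.Agent.Helper22.RKI
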